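import Mathlib

/-!
Cubic fourfolds `X` with `rank A(X) ≥ 4`: the variety of lines is birational to the Hilbert square
of a K3 surface if and only if `X` has an associated K3 surface.
-/

set_option autoImplicit false

namespace Pool.Agent.Results.MP_4d0966_ag.HighRankEquivalence

/-- The form takes positive and negative values. -/
def Indefinite {M : Type} [AddCommGroup M] (B : LinearMap.BilinForm ℤ M) : Prop :=
  (∃ a : M, 0 < B a a) ∧ ∃ b : M, B b b < 0

/-- Strong approximation for the representation of numbers by cosets of indefinite lattices of rank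
at least four (Eichler, Kneser; Colliot-Thélène and Xu): if `c ≠ 0` is modulo every `N` a value of
the quadratic form on the coset `x₀ + s M`, then it is a value of the quadratic form on this
coset. -/
def StrongApproximation : Prop :=
  ∀ (M : Type) [AddCommGroup M] [Module.Free ℤ M] [Module.Finite ℤ M]
    (B : LinearMap.BilinForm ℤ M), (∀ x y, B x y = B y x) → (∀ x, (∀ y, B x y = 0) → x = 0) →
    4 ≤ Module.finrank ℤ M → Indefinite B → ∀ (x₀ : M) (s c : ℤ), s ≠ 0 → c ≠ 0 →
    (∀ N : ℤ, N ≠ 0 → ∃ y : M, N ∣ B (x₀ + s • y) (x₀ + s • y) - c) →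
    ∃ y : M, B (x₀ + s • y) (x₀ + s • y) = c

/-- An even nondegenerate lattice with a vector `v` with `v² ≠ 0` such that the form is indefinite
on the orthogonal complement of `v`. -/
structure ExtendedLattice (Λ : Type) [AddCommGroup Λ] where
  form : LinearMap.BilinForm ℤ Λ
  symm : ∀ x y, form x y = form y x
  even : ∀ x, Even (form x x)
  nondegenerate : ∀ x, (∀ y, form x y = 0) → x = 0
  v : Λ
  v_sq : form v v ≠ 0
  positive : ∃ a, form a v = 0 ∧ 0 < form a a
  negative : ∃ b, form b v = 0 ∧ form b b < 0

/-- The lattice contains a hyperbolic plane. -/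
def ContainsHyperbolicPlane {Λ : Type} [AddCommGroup Λ] (B : LinearMap.BilinForm ℤ Λ) : Prop :=
  ∃ e f : Λ, B e e = 0 ∧ B f f = 0 ∧ B e f = 1

/-- There is a vector `w` with `w² = 0` and `(w, v) = 1`. -/
def HasPointClass {Λ : Type} [AddCommGroup Λ] (B : LinearMap.BilinForm ℤ Λ) (v : Λ) : Prop :=
  ∃ w : Λ, B w w = 0 ∧ B w v = 1

/-- The algebraic part `N` of the Mukai lattice of the K3 category of a cubic fourfold `X`, of rank
`rank A(X) + 1`: an even lattice with classes `l₁`, `l₂` spanning `A₂`, whose orthogonal complement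
is negative definite (it is the lattice of primitive algebraic classes of `X` with the sign
changed). -/
structure CubicLattice (N : Type) [AddCommGroup N] where
  form : LinearMap.BilinForm ℤ N
  symm : ∀ x y, form x y = form y x
  even : ∀ x, Even (form x x)
  l₁ : N
  l₂ : N
  l₁_sq : form l₁ l₁ = 2
  l₂_sq : form l₂ l₂ = 2
  l₁_l₂ : form l₁ l₂ = -1
  negative : ∀ x, form x l₁ = 0 → form x l₂ = 0 → x ≠ 0 → form x x < 0

section local_part

variable {Λ : Type} [AddCommGroup Λ] (L : ExtendedLattice Λ)

/-- For every prime there is an isotropic vector whose product with `v` is prime to it. -/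
theorem isotropic_prime (hU : ContainsHyperbolicPlane L.form) {u : Λ} (hu : L.form u L.v = 1)
    (p : ℕ) (hp : p.Prime) : ∃ w : Λ, L.form w w = 0 ∧ ¬ (p : ℤ) ∣ L.form w L.v := by
  obtain ⟨e, f, he, hf, hef⟩ := hU
  by_contra hcon
  push Not at hcon
  have h1 := hcon e he
  have h2 := hcon f hf
  -- all products with `v` are divisible by `p`
  have h3 : ∀ m : Λ, (p : ℤ) ∣ L.form m L.v := by
    intro m
    set a := L.form m e with ha
    set b := L.form m f with hb
    set m' := m - b • e - a • f with hm'
    have hfe : L.form f e = 1 := by rw [L.symm]; exact hef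
    have hme : L.form m' e = 0 := by
      simp only [hm', map_sub, map_smul, LinearMap.sub_apply, LinearMap.smul_apply, he, hfe,
        smul_eq_mul]
      rw [← ha]; ring
    have hmf : L.form m' f = 0 := by
      simp only [hm', map_sub, map_smul, LinearMap.sub_apply, LinearMap.smul_apply, hf, hef,
        smul_eq_mul]
      rw [← hb]; ring
    obtain ⟨q, hq⟩ := L.even m'
    have hem : L.form e m' = 0 := by rw [L.symm]; exact hme
    have hfm : L.form f m' = 0 := by rw [L.symm]; exact hmf
    have h4 : L.form (m' + f - q • e) (m' + f - q • e) = 0 := by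
      simp only [map_sub, map_add, map_smul, LinearMap.sub_apply, LinearMap.add_apply,
        LinearMap.smul_apply, he, hf, hef, hfe, hme, hmf, hem, hfm, hq, smul_eq_mul]
      ring
    have h5 := hcon _ h4
    have h6 : L.form (m' + f - q • e) L.v =
        L.form m' L.v + L.form f L.v - q * L.form e L.v := by
      simp only [map_sub, map_add, map_smul, LinearMap.sub_apply, LinearMap.add_apply,
        LinearMap.smul_apply, smul_eq_mul]
    have h7 : L.form m L.v = L.form (m' + f - q • e) L.v + (b + q) * L.form e L.v
        + (a - 1) * L.form f L.v := by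
      have h8 : L.form m' L.v = L.form m L.v - b * L.form e L.v - a * L.form f L.v := by
        simp only [hm', map_sub, map_smul, LinearMap.sub_apply, LinearMap.smul_apply, smul_eq_mul]
      rw [h6, h8]; ring
    rw [h7]
    exact dvd_add (dvd_add h5 (Dvd.dvd.mul_left h1 _)) (Dvd.dvd.mul_left h2 _)
  have h8 := h3 u
  rw [hu] at h8
  have := Int.le_of_dvd one_pos h8
  have h9 := hp.two_le
  omega

/-- The local condition: modulo every `N` there is an isotropic vector with product `1` with `v`. -/
theorem local_solution (hU : ContainsHyperbolicPlane L.form) {u : Λ} (hu : L.form u L.v = 1)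
    (N : ℕ) (hN : N ≠ 0) : ∃ w : Λ, L.form w L.v = 1 ∧ (N : ℤ) ∣ L.form w w := by
  -- first: congruence version
  have key : ∀ n : ℕ, n ≠ 0 → ∃ w : Λ, (n : ℤ) ∣ L.form w L.v - 1 ∧ (n : ℤ) ∣ L.form w w := by
    intro n
    induction n using Nat.recOnPosPrimePosCoprime with
    | zero => intro h; exact absurd rfl h
    | one => intro _; exact ⟨0, by simp, by simp⟩
    | prime_pow p k hp hk =>
      intro _
      obtain ⟨w, hw, hpw⟩ := isotropic_prime L hU hu p hp
      have hcop : IsCoprime (L.form w L.v) ((p : ℤ) ^ k) := by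
        apply IsCoprime.pow_right
        exact ((Int.prime_iff_natAbs_prime.2 (by simpa using hp)).coprime_iff_not_dvd.2 hpw).symm
      obtain ⟨a, b, hab⟩ := hcop
      refine ⟨a • w, ?_, ?_⟩
      · refine ⟨-b, ?_⟩
        simp only [map_smul, LinearMap.smul_apply, smul_eq_mul, Nat.cast_pow]
        linarith [hab, mul_comm (p ^ k : ℤ) (-b)]
      · simp [hw]
    | coprime a b ha hb hab iha ihb =>
      intro _
      obtain ⟨w₁, h1, h2⟩ := iha (by omega)
      obtain ⟨w₂, h3, h4⟩ := ihb (by omega)
      have hc : IsCoprime (a : ℤ) (b : ℤ) := Nat.isCoprime_iff_coprime.2 hab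
      obtain ⟨s, t, hst⟩ := hc
      -- `w = (t b) w₁ + (s a) w₂`
      refine ⟨(t * b) • w₁ + (s * a) • w₂, ?_, ?_⟩
      · rw [Nat.cast_mul]
        apply IsCoprime.mul_dvd ⟨s, t, hst⟩
        · have : L.form ((t * b) • w₁ + (s * a) • w₂) L.v - 1 =
              (t * b) * (L.form w₁ L.v - 1) + a * (s * L.form w₂ L.v - s) := by
            simp only [map_add, map_smul, LinearMap.add_apply, LinearMap.smul_apply, smul_eq_mul]
            linear_combination (1 : ℤ) * hst
          rw [this]
          exact dvd_add (Dvd.dvd.mul_left h1 _) (dvd_mul_right _ _)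
        · have : L.form ((t * b) • w₁ + (s * a) • w₂) L.v - 1 =
              (s * a) * (L.form w₂ L.v - 1) + b * (t * L.form w₁ L.v - t) := by
            simp only [map_add, map_smul, LinearMap.add_apply, LinearMap.smul_apply, smul_eq_mul]
            linear_combination (1 : ℤ) * hst
          rw [this]
          exact dvd_add (Dvd.dvd.mul_left h3 _) (dvd_mul_right _ _)
      · rw [Nat.cast_mul]
        have h5 : L.form ((t * b) • w₁ + (s * a) • w₂) ((t * b) • w₁ + (s * a) • w₂) =
            (t * b) ^ 2 * L.form w₁ w₁ + (s * a) ^ 2 * L.form w₂ w₂ +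
              2 * (t * b) * (s * a) * L.form w₁ w₂ := by
          simp only [map_add, map_smul, LinearMap.add_apply, LinearMap.smul_apply, smul_eq_mul]
          rw [L.symm w₂ w₁]; ring
        apply IsCoprime.mul_dvd ⟨s, t, hst⟩
        · rw [h5]
          refine dvd_add (dvd_add (Dvd.dvd.mul_left h2 _) ?_) ?_
          · exact ⟨s ^ 2 * a * L.form w₂ w₂, by ring⟩
          · exact ⟨2 * (t * b) * s * L.form w₁ w₂, by ring⟩
        · rw [h5]
          refine dvd_add (dvd_add ?_ (Dvd.dvd.mul_left h4 _)) ?_
          · exact ⟨t ^ 2 * b * L.form w₁ w₁, by ring⟩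
          · exact ⟨2 * t * (s * a) * L.form w₁ w₂, by ring⟩
  obtain ⟨w, ⟨c, hc⟩, ⟨d, hd⟩⟩ := key N hN
  refine ⟨w - ((N : ℤ) * c) • u, ?_, ?_⟩
  · simp only [map_sub, map_smul, LinearMap.sub_apply, LinearMap.smul_apply, smul_eq_mul, hu]
    linarith
  · have h5 : L.form (w - ((N : ℤ) * c) • u) (w - ((N : ℤ) * c) • u) =
        L.form w w - 2 * ((N : ℤ) * c) * L.form w u + ((N : ℤ) * c) ^ 2 * L.form u u := by
      simp only [map_sub, map_smul, LinearMap.sub_apply, LinearMap.smul_apply, smul_eq_mul]
      rw [L.symm u w]; ring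
    rw [h5, hd]
    exact ⟨d - 2 * c * L.form w u + N * c ^ 2 * L.form u u, by ring⟩

end local_part

/-- The orthogonal complement of `v`. -/
def perp {Λ : Type} [AddCommGroup Λ] (L : ExtendedLattice Λ) : Submodule ℤ Λ :=
  LinearMap.ker (L.form.flip L.v)

theorem mem_perp {Λ : Type} [AddCommGroup Λ] (L : ExtendedLattice Λ) (x : Λ) :
    x ∈ perp L ↔ L.form x L.v = 0 := by
  simp [perp, LinearMap.mem_ker]

theorem finrank_perp {Λ : Type} [AddCommGroup Λ] [Module.Free ℤ Λ] [Module.Finite ℤ Λ]
    (L : ExtendedLattice Λ) : Module.finrank ℤ Λ ≤ Module.finrank ℤ (perp L) + 1 := by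
  have h := Submodule.finrank_quotient_add_finrank (perp L)
  have h2 : Module.finrank ℤ (Λ ⧸ perp L) ≤ 1 := by
    have h3 := (LinearMap.quotKerEquivRange (L.form.flip L.v)).finrank_eq
    have h4 : Module.finrank ℤ (LinearMap.range (L.form.flip L.v)) ≤ Module.finrank ℤ ℤ :=
      Submodule.finrank_le _
    rw [Module.finrank_self] at h4
    unfold perp
    omega
  omega

theorem main {Λ : Type} [AddCommGroup Λ] [Module.Free ℤ Λ] [Module.Finite ℤ Λ]
    (hS : StrongApproximation) (L : ExtendedLattice Λ) (hr : 5 ≤ Module.finrank ℤ Λ)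
    (hU : ContainsHyperbolicPlane L.form) {u : Λ} (hu : L.form u L.v = 1) :
    HasPointClass L.form L.v := by
  set D : ℤ := L.form L.v L.v with hD
  -- the base point of the coset
  have hx0 : D • u - L.v ∈ perp L := by
    rw [mem_perp]
    simp only [map_sub, map_smul, LinearMap.sub_apply, LinearMap.smul_apply, smul_eq_mul, hu]
    rw [← hD]; ring
  set B : LinearMap.BilinForm ℤ (perp L) := L.form.restrict (perp L) with hB
  have hBa : ∀ x y : perp L, B x y = L.form x y := fun x y => rfl
  have hfr := finrank_perp L
  obtain ⟨a, ha1, ha2⟩ := L.positive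
  obtain ⟨b, hb1, hb2⟩ := L.negative
  obtain ⟨y, hy⟩ := hS (perp L) B (fun x y => L.symm x y) (fun x hx => by
      have : (x : Λ) = 0 := by
        apply L.nondegenerate
        intro z
        have hz : D • z - L.form z L.v • L.v ∈ perp L := by
          rw [mem_perp]
          simp only [map_sub, map_smul, LinearMap.sub_apply, LinearMap.smul_apply, smul_eq_mul]
          rw [← hD]; ring
        have h1 := hx ⟨_, hz⟩
        rw [hBa] at h1
        have h2 : L.form (x : Λ) (D • z - L.form z L.v • L.v) = D * L.form x z := by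
          have h3 : L.form (x : Λ) L.v = 0 := (mem_perp L _).1 x.2
          simp only [map_sub, map_smul, smul_eq_mul, h3]
          ring
        change L.form (x : Λ) (D • z - L.form z L.v • L.v) = 0 at h1
        rw [h2] at h1
        exact (mul_eq_zero.1 h1).resolve_left L.v_sq
      exact Subtype.ext this) (by omega)
    ⟨⟨⟨a, (mem_perp L a).2 ha1⟩, ha2⟩, ⟨⟨b, (mem_perp L b).2 hb1⟩, hb2⟩⟩
    ⟨_, hx0⟩ D (-D) L.v_sq (neg_ne_zero.2 L.v_sq) (fun N hN => by
      obtain ⟨w, hw1, d, hd⟩ := local_solution L hU hu N.natAbs (by simpa using hN)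
      have hwu : w - u ∈ perp L := by
        rw [mem_perp]
        simp only [map_sub, LinearMap.sub_apply, hw1, hu, sub_self]
      refine ⟨⟨_, hwu⟩, ?_⟩
      have h1 : (((⟨_, hx0⟩ : perp L) + D • (⟨_, hwu⟩ : perp L) : perp L) : Λ) =
          D • w - L.v := by
        simp only [Submodule.coe_add, Submodule.coe_smul]
        rw [smul_sub]; abel
      rw [hBa, h1]
      have h2 : L.form (D • w - L.v) (D • w - L.v) - -D = D ^ 2 * L.form w w := by
        simp only [map_sub, map_smul, LinearMap.sub_apply, LinearMap.smul_apply, smul_eq_mul]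
        rw [L.symm L.v w, hw1, ← hD]; ring
      rw [h2, hd]
      have h3 : N ∣ (N.natAbs : ℤ) := Int.dvd_natAbs.2 dvd_rfl
      exact Dvd.dvd.mul_left (Dvd.dvd.mul_right h3 _) _)
  set w : Λ := u + (y : Λ) with hw
  have hyv : L.form (y : Λ) L.v = 0 := (mem_perp L _).1 y.2
  have hw1 : L.form w L.v = 1 := by
    simp only [hw, map_add, LinearMap.add_apply, hu, hyv, add_zero]
  refine ⟨w, ?_, hw1⟩
  have h1 : (((⟨_, hx0⟩ : perp L) + D • y : perp L) : Λ) = D • w - L.v := by
    simp only [Submodule.coe_add, Submodule.coe_smul, hw]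
    rw [smul_add]; abel
  rw [hBa, h1] at hy
  have h2 : L.form (D • w - L.v) (D • w - L.v) = D ^ 2 * L.form w w - D := by
    simp only [map_sub, map_smul, LinearMap.sub_apply, LinearMap.smul_apply, smul_eq_mul]
    rw [L.symm L.v w, hw1, ← hD]; ring
  rw [h2] at hy
  have h3 : D ^ 2 * L.form w w = 0 := by linarith
  exact (mul_eq_zero.1 h3).resolve_left (pow_ne_zero 2 L.v_sq)

/-- A vector `w` with `w² = 0` and `(w, v) = 1` gives a hyperbolic plane. -/
theorem plane_of_point {Λ : Type} [AddCommGroup Λ] (L : ExtendedLattice Λ)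
    (h : HasPointClass L.form L.v) : ContainsHyperbolicPlane L.form := by
  obtain ⟨w, hw, hv⟩ := h
  obtain ⟨q, hq⟩ := L.even L.v
  refine ⟨w, L.v - q • w, hw, ?_, ?_⟩
  · simp only [map_sub, map_smul, LinearMap.sub_apply, LinearMap.smul_apply, smul_eq_mul, hw, hq]
    rw [L.symm L.v w, hv]; ring
  · simp only [map_sub, map_smul, smul_eq_mul, hw, hv]
    ring

/-- **Cubic fourfolds and Hilbert squares.**

(1) Let `N` be the lattice of a cubic fourfold `X` with `rank A(X) ≥ 4`, so that `N` has rank at
least five. Then `N` contains a hyperbolic plane if and only if it contains a vector `w` with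
`w² = 0` and `(w, l₁) = 1`. By Addington and Thomas the first condition means that `X` has an
associated K3 surface (Hassett's condition: `X` is in `C_d` for an admissible `d`), and by Addington
(and Markman) the second one means that `F(X)` is birational to `S^[2]` for a K3 surface `S`.

(2) Generally let `Λ` be an even nondegenerate lattice of rank at least five with a vector `v`,
`v² ≠ 0`, whose orthogonal complement is indefinite: e.g. the algebraic part of the extended
(Markman) Mukai lattice of a projective hyperkähler manifold `Y` of `K3^[n]` type with Picard rank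
at least four, `v² = 2 n - 2`. Suppose that `Λ` contains a hyperbolic plane (`Y` is birational to a
moduli space of stable objects on a K3 surface). Then there is a `w` with `w² = 0`, `(w, v) = 1`
(`Y` is birational to `S^[n]`, `S` a K3 surface) if and only if `(u, v) = 1` for some `u` in `Λ`. -/
theorem result (hS : StrongApproximation) :
    (∀ (N : Type) [AddCommGroup N] [Module.Free ℤ N] [Module.Finite ℤ N] (L : CubicLattice N),
      5 ≤ Module.finrank ℤ N →
      (ContainsHyperbolicPlane L.form ↔ HasPointClass L.form L.l₁)) ∧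
    (∀ (Λ : Type) [AddCommGroup Λ] [Module.Free ℤ Λ] [Module.Finite ℤ Λ]
      (L : ExtendedLattice Λ), 5 ≤ Module.finrank ℤ Λ → ContainsHyperbolicPlane L.form →
      (HasPointClass L.form L.v ↔ ∃ u, L.form u L.v = 1)) := by
  constructor
  · intro N _ _ _ L hr
    have hnd : ∀ x, (∀ y, L.form x y = 0) → x = 0 := by
      intro x hx
      by_contra h0
      have := L.negative x (hx _) (hx _) h0
      rw [hx x] at this
      exact lt_irrefl _ this
    have h21 : L.form L.l₂ L.l₁ = -1 := by rw [L.symm]; exact L.l₁_l₂
    -- a nonzero vector orthogonal to both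
    have hneg : ∃ b, L.form b L.l₁ = 0 ∧ L.form b L.l₂ = 0 ∧ b ≠ 0 := by
      by_contra hcon
      push Not at hcon
      -- the map to `ℤ²` is injective
      let φ : N →ₗ[ℤ] (ℤ × ℤ) := (L.form.flip L.l₁).prod (L.form.flip L.l₂)
      have hinj : Function.Injective φ := by
        rw [← LinearMap.ker_eq_bot, LinearMap.ker_eq_bot']
        intro x hx
        have h1 : L.form x L.l₁ = 0 := congrArg Prod.fst hx
        have h2 : L.form x L.l₂ = 0 := congrArg Prod.snd hx
        exact hcon x h1 h2
      have h3 := LinearMap.finrank_le_finrank_of_injective hinj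
      rw [Module.finrank_prod, Module.finrank_self] at h3
      omega
    obtain ⟨b, hb1, hb2, hb0⟩ := hneg
    let E : ExtendedLattice N :=
      { form := L.form
        symm := L.symm
        even := L.even
        nondegenerate := hnd
        v := L.l₁
        v_sq := by rw [L.l₁_sq]; norm_num
        positive := ⟨L.l₁ + (2 : ℤ) • L.l₂, by
          simp only [map_add, map_smul, LinearMap.add_apply, LinearMap.smul_apply, smul_eq_mul,
            L.l₁_sq, h21]
          norm_num, by
          simp only [map_add, map_smul, LinearMap.add_apply, LinearMap.smul_apply, smul_eq_mul,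
            L.l₁_sq, L.l₂_sq, L.l₁_l₂, h21]
          norm_num⟩
        negative := ⟨b, hb1, L.negative b hb1 hb2 hb0⟩ }
    constructor
    · intro hU
      refine main hS E hr hU (u := -L.l₂) ?_
      change L.form (-L.l₂) L.l₁ = 1
      rw [map_neg, LinearMap.neg_apply, h21, neg_neg]
    · intro hw
      exact plane_of_point E hw
  · intro Λ _ _ _ L hr hU
    constructor
    · rintro ⟨w, _, hw⟩
      exact ⟨w, hw⟩
    · rintro ⟨u, hu⟩
      exact main hS L hr hU hu

end Pool.Agent.Results.MP_4d0966_ag.HighRankEquivalence
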