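import Pool.Agent.TH127.CF.Main

/-!
# Cubic fourfolds in `C_8` and `C_18`: associated K3 surfaces and Hilbert squares

Let `X` be a smooth cubic fourfold over `ℂ`, `F(X)` its variety of lines, and
`N = H^{2,2}(X) ∩ H^4(X, ℤ)` with the intersection form and the class `h = h^2`. For a class `T` in
`N` let `disc T = 3 T^2 - (T h)^2`, the discriminant of the sublattice generated by `h` and `T`.

Addington (On two rationality conjectures for cubic fourfolds) proved: `F(X)` is birational to
`S^[2]` for a K3 surface `S` if and only if `X` lies in `C_d` for some `d` with

`(***)`: `a^2 d = 2 n^2 + 2 n + 2` for some integers `a ≠ 0` and `n`.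

By Hassett, Addington and Thomas, `X` has an associated K3 surface (so it should be rational
according to Hassett and Kuznetsov) if and only if it lies in `C_d` for some `d` with

`(**)`: `d` is not divisible by `4`, by `9`, or by an odd prime `p ≡ 2 mod 3`.

The first condition is more restrictive; for example it does not hold for a very general `X` in
`C_74`, which has an associated K3 surface. Here we show that the two conditions are
equivalent if `X` contains a plane (that is, if `X` lies in `C_8`), or if `X` lies in `C_18`.
So the conjecture of Galkin and Shinder (Q1) and the conjectures of Hassett and Kuznetsov are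
equivalent for these cubic fourfolds. For `X` in `C_8` both conditions hold if and only if `X` lies
in `C_d` for some `d ≡ 2 mod 4`.

Cubic fourfolds which are known to be rational are those in `C_14`, `C_26`, `C_38`, `C_42` (Beauville
and Donagi, Russo and Stagliano), those with a plane `P` and a class `T` such that `T (h - P)` is
odd (Hassett) and those in `C_18` with a class `T` such that `T S` is not divisible by `3`, where `S`
is the class of the sextic del Pezzo surfaces (Addington, Hassett, Tschinkel and
Varilly-Alvarado). We show that all of them satisfy `(***)`. So `F(X)` is birational to the Hilbert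
square of a K3 surface in all these cases, as predicted by Q1, and Q1 holds for these `X`.

Proof. For `S` of discriminant `2 m^2`, `m = 2` or `3`, and for `T` with `disc T = 2 e`, one has
`disc (x S + y T) = 2 (m^2 x^2 + β x y + e y^2)`. The equation
`m^2 x^2 + β x y + e y^2 = n^2 + n + 1` becomes linear in `x` if `y` is fixed and `n = m x + k`:
`x (β y - 2 m k - m) = k^2 + k + 1 - e y^2`. One chooses `y` and `k` such that the coefficient of `x`
is `±1` or a small number which divides the right hand side.
-/

set_option autoImplicit false

namespace Pool.Agent.Results.MP_4d0966_ag.HilbertSquaresOnC8AndC18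

open Pool.Agent.TH127.CF

/-- Let `N` be the lattice of algebraic classes in `H^4` of a cubic fourfold `X`.
(1) If `X` is in `C_8`, then `X` is in `C_d` for some `d ≡ 2 mod 4` iff this holds for some `d` with
`(**)` iff it holds for some `d` with `(***)`.
(2) If `X` is in `C_18`, then `X` is in `C_d` for some `d` with `(**)` iff it is in `C_d` for some
`d` with `(***)`.
(3) `X` is in `C_d` for some `d` with `(***)` if `X` contains a plane `P` and `(h - P) T` is odd for
some `T`; if `disc S = 18` and `S T` is not divisible by `3` for some `S`, `T`; if
`disc S = 2 m^2` and `3 S T - (S h) (T h)` is prime to `m` for some `S`, `T`; if `X` is in `C_14`,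
`C_26`, `C_38` or `C_42`.
(4) For every `X`: if it is in `C_d` for some `d` with `(***)`, then for some `d` with `(**)`. -/
theorem result {N : Type*} [AddCommGroup N] (L : CubicLattice N) :
    (L.InHassettDivisor 8 → List.TFAE [∃ d : ℤ, d % 4 = 2 ∧ L.InHassettDivisor d,
      L.HasAssociatedK3, L.HasHilbertSquare]) ∧
    (L.InHassettDivisor 18 → (L.HasAssociatedK3 ↔ L.HasHilbertSquare)) ∧
    (∀ P T : N, L.form P P = 3 → L.form P L.h = 1 → Odd (L.form (L.h - P) T) →
      L.HasHilbertSquare) ∧
    (∀ S T : N, L.disc S = 18 → ¬ 3 ∣ L.form S T → L.HasHilbertSquare) ∧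
    (∀ (S T : N) (m : ℤ), L.disc S = 2 * m ^ 2 →
      IsCoprime (3 * L.form S T - L.form S L.h * L.form T L.h) m → L.HasHilbertSquare) ∧
    (∀ d : ℤ, d = 14 ∨ d = 26 ∨ d = 38 ∨ d = 42 → L.InHassettDivisor d → L.HasHilbertSquare) ∧
    (L.HasHilbertSquare → L.HasAssociatedK3) :=
  ⟨tfae_eight L, iff_eighteen L, fun _ _ => hilbert_of_plane L, fun _ _ => hilbert_of_sextic L,
    fun _ _ _ => hilbert_of_coprime L, fun _ => hilbert_of_known L, hilbert_imp_k3 L⟩

end Pool.Agent.Results.MP_4d0966_ag.HilbertSquaresOnC8AndC18
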